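import Mathlib
import Pool.Agent.Results.MP_555c3f_al.PowerOfTwoBound

/-!
# MP_b60f31_al : pseudoinverse solutions of systems `x_i = 1`, `x_i + x_j = x_k`

For the matrix representation `A x = b` of any finite family of equations of the forms `x_i = 1`
and `x_i + x_j = x_k` in `n` variables, every coordinate of `A† b` lies in `[-2^(n-1), 2^(n-1)]`.
-/

namespace Pool.Agent.Results.MP_b60f31_al.PseudoinverseBound

open Matrix
open Pool.Agent.Results

/-- The equations `x_i = 1` (`one i`) and `x_i + x_j = x_k` (`add i j k`) in `n` variables. -/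
inductive Eqn (n : ℕ) : Type
  | one (i : Fin n) : Eqn n
  | add (i j k : Fin n) : Eqn n

/-- The row of the equation in the matrix representation. -/
def Eqn.row {n : ℕ} : Eqn n → Fin n → ℝ
  | .one i => Pi.single i 1
  | .add i j k => Pi.single i 1 + Pi.single j 1 - Pi.single k 1

/-- The right hand side of the equation. -/
def Eqn.rhs {n : ℕ} : Eqn n → ℝ
  | .one _ => 1
  | .add _ _ _ => 0

/-- The matrix `A` of a family of equations. -/
def sysMatrix {m n : ℕ} (S : Fin m → Eqn n) : Matrix (Fin m) (Fin n) ℝ :=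
  Matrix.of fun t => (S t).row

/-- The right hand side `b` of a family of equations. -/
def sysRhs {m n : ℕ} (S : Fin m → Eqn n) : Fin m → ℝ := fun t => (S t).rhs

/-- `X` is the Moore-Penrose pseudoinverse of `A`: the four Penrose equations hold. -/
structure IsPseudoinverse {m n : ℕ} (A : Matrix (Fin m) (Fin n) ℝ)
    (X : Matrix (Fin n) (Fin m) ℝ) : Prop where
  one : A * X * A = A
  two : X * A * X = X
  three : (A * X)ᵀ = A * X
  four : (X * A)ᵀ = X * A

/-! ### Evaluation of the rows -/

lemma mulVec_one {n : ℕ} (i : Fin n) (y : Fin n → ℝ) :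
    (Eqn.one i).row ⬝ᵥ y = y i := by
  simp [Eqn.row]

lemma mulVec_add' {n : ℕ} (i j k : Fin n) (y : Fin n → ℝ) :
    (Eqn.add i j k).row ⬝ᵥ y = y i + y j - y k := by
  simp [Eqn.row, sub_dotProduct, add_dotProduct]

lemma sysMatrix_mulVec {m n : ℕ} (S : Fin m → Eqn n) (y : Fin n → ℝ) (t : Fin m) :
    (sysMatrix S *ᵥ y) t = (S t).row ⬝ᵥ y := rfl

/-- The homogeneous equations attached to a point `y`. -/
def Hom {n : ℕ} (y d : Fin n → ℝ) : Prop :=
  (∀ i, y i = 1 → d i = 0) ∧ ∀ i j k, y i + y j = y k → d i + d j = d k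

lemma Hom.row_eq_zero {n : ℕ} {y d : Fin n → ℝ} (h : Hom y d) (e : Eqn n)
    (he : e.row ⬝ᵥ y - e.rhs = 0) : e.row ⬝ᵥ d = 0 := by
  cases e with
  | one i =>
    rw [mulVec_one] at he ⊢
    exact h.1 i (by simpa [Eqn.rhs, sub_eq_zero] using he)
  | add i j k =>
    rw [mulVec_add'] at he ⊢
    have h1 : y i + y j = y k := by
      have h2 : y i + y j - y k - 0 = 0 := he
      linarith
    have := h.2 i j k h1
    linarith

/-- A point which is rigid has all coordinates bounded by `2^(n-1)`. -/
lemma bound_of_rigid {n : ℕ} (y : Fin n → ℝ) (hy : ∀ d, Hom y d → d = 0) (l : Fin n) :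
    |y l| ≤ 2 ^ (n - 1) := by
  have key := MP_555c3f_al.PowerOfTwoBound.result n
    {e | e.Holds (fun i => (y i : ℂ))} (fun i => (y i : ℂ)) (by
      intro z
      constructor
      · intro h
        have hre : (fun i => (z i).re - y i) = 0 := by
          apply hy
          constructor
          · intro i hi
            have h1 : z i = 1 := h (.one i) (by show (y i : ℂ) = 1; rw [hi]; simp)
            show (z i).re - y i = 0
            rw [h1, hi]; simp
          · intro i j k hijk
            have h1 : z i + z j = z k := h (.add i j k) (by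
              show (y i : ℂ) + y j = y k
              exact_mod_cast hijk)
            have h2 := congrArg Complex.re h1
            rw [Complex.add_re] at h2
            show (z i).re - y i + ((z j).re - y j) = (z k).re - y k
            linarith
        have him : (fun i => (z i).im) = 0 := by
          apply hy
          constructor
          · intro i hi
            have h1 : z i = 1 := h (.one i) (by show (y i : ℂ) = 1; rw [hi]; simp)
            show (z i).im = 0
            rw [h1]; simp
          · intro i j k hijk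
            have h1 : z i + z j = z k := h (.add i j k) (by
              show (y i : ℂ) + y j = y k
              exact_mod_cast hijk)
            have h2 := congrArg Complex.im h1
            rw [Complex.add_im] at h2
            exact h2
        funext i
        apply Complex.ext
        · have := congrFun hre i
          simp only [Pi.zero_apply] at this
          rw [Complex.ofReal_re]
          linarith
        · have := congrFun him i
          simp only [Pi.zero_apply] at this
          rw [Complex.ofReal_im]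
          exact this
      · rintro rfl e he
        exact he) l
  obtain ⟨r, hr, hnum, -⟩ := key
  have hr' : y l = (r : ℝ) := by exact_mod_cast hr
  have h3 : (1 : ℚ) ≤ r.den := by exact_mod_cast r.pos
  have h4 : |r| ≤ |(r.num : ℚ)| := by
    calc |r| = |(r.num : ℚ) / r.den| := by rw [Rat.num_div_den r]
      _ = |(r.num : ℚ)| / r.den := by
          rw [abs_div, abs_of_nonneg (a := (r.den : ℚ)) (by positivity)]
      _ ≤ |(r.num : ℚ)| := div_le_self (abs_nonneg _) h3
  have h5 : |r| ≤ 2 ^ (n - 1) := h4.trans (by exact_mod_cast hnum)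
  rw [hr']
  exact_mod_cast h5

/-! ### The polytope -/

section

variable {m n : ℕ} (A : Matrix (Fin m) (Fin n) ℝ) (b r w : Fin m → ℝ) (x0 : Fin n → ℝ)

/-- The polytope of points `y` whose residuals and coordinates have the same signs as those of
`x0`. -/
def Poly : Set (Fin n → ℝ) :=
  {y | (∀ t, 0 ≤ r t * ((A *ᵥ y) t - b t)) ∧ (∀ t, r t = 0 → (A *ᵥ y) t - b t = 0) ∧
    (∀ i, 0 ≤ x0 i * y i) ∧ ∀ i, x0 i = 0 → y i = 0}

lemma poly_closed : IsClosed (Poly A b r x0) := by
  have hc : ∀ t, Continuous fun y : Fin n → ℝ => (A *ᵥ y) t - b t := by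
    intro t
    have : Continuous fun y : Fin n → ℝ => A *ᵥ y :=
      (Matrix.mulVecLin A).continuous_of_finiteDimensional
    exact ((continuous_apply t).comp this).sub continuous_const
  have h1 : IsClosed {y : Fin n → ℝ | ∀ t, 0 ≤ r t * ((A *ᵥ y) t - b t)} := by
    simp only [Set.ofPred_forall]
    exact isClosed_iInter fun t => isClosed_le continuous_const (continuous_const.mul (hc t))
  have h2 : IsClosed {y : Fin n → ℝ | ∀ t, r t = 0 → (A *ᵥ y) t - b t = 0} := by
    simp only [Set.ofPred_forall]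
    exact isClosed_iInter fun t => isClosed_iInter fun _ => isClosed_eq (hc t) continuous_const
  have h3 : IsClosed {y : Fin n → ℝ | ∀ i, 0 ≤ x0 i * y i} := by
    simp only [Set.ofPred_forall]
    exact isClosed_iInter fun i =>
      isClosed_le continuous_const (continuous_const.mul (continuous_apply i))
  have h4 : IsClosed {y : Fin n → ℝ | ∀ i, x0 i = 0 → y i = 0} := by
    simp only [Set.ofPred_forall]
    exact isClosed_iInter fun i => isClosed_iInter fun _ =>
      isClosed_eq (continuous_apply i) continuous_const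
  exact h1.inter (h2.inter (h3.inter h4))

variable {A b r w x0}

lemma poly_bounded (hr : Aᵀ *ᵥ r = 0) (hw : x0 = Aᵀ *ᵥ w) :
    ∃ u : Fin n → ℝ, Poly A b r x0 ⊆ Set.Icc (-u) u := by
  let C : ℝ := -(r ⬝ᵥ b)
  let v : Fin m → ℝ := fun t => |b t| + C / |r t|
  let D : ℝ := ∑ t, |w t| * v t
  refine ⟨fun i => D / |x0 i|, ?_⟩
  intro y hy
  obtain ⟨h1, h2, h3, h4⟩ := hy
  have hsum : ∑ t, r t * ((A *ᵥ y) t - b t) = C := by
    have e1 : r ⬝ᵥ (A *ᵥ y) = 0 := by
      rw [Matrix.dotProduct_mulVec, ← Matrix.mulVec_transpose, hr, zero_dotProduct]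
    calc ∑ t, r t * ((A *ᵥ y) t - b t) = r ⬝ᵥ (A *ᵥ y) - r ⬝ᵥ b := by
          simp only [dotProduct, mul_sub, Finset.sum_sub_distrib]
      _ = C := by rw [e1, zero_sub]
  have hle : ∀ t, r t * ((A *ᵥ y) t - b t) ≤ C := by
    intro t
    rw [← hsum]
    exact Finset.single_le_sum (fun t _ => h1 t) (Finset.mem_univ t)
  have hv : ∀ t, |(A *ᵥ y) t| ≤ v t := by
    intro t
    have e1 : |(A *ᵥ y) t - b t| ≤ C / |r t| := by
      by_cases hrt : r t = 0
      · rw [h2 t hrt, hrt]; simp
      · rw [le_div_iff₀ (abs_pos.2 hrt), mul_comm, ← abs_mul, abs_of_nonneg (h1 t)]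
        exact hle t
    calc |(A *ᵥ y) t| = |b t + ((A *ᵥ y) t - b t)| := by congr 1; ring
      _ ≤ |b t| + |(A *ᵥ y) t - b t| := abs_add_le _ _
      _ ≤ v t := by simp only [v]; linarith
  have hsum2 : ∑ i, x0 i * y i ≤ D := by
    have e1 : ∑ i, x0 i * y i = ∑ t, w t * (A *ᵥ y) t := by
      have e2 : x0 ⬝ᵥ y = w ⬝ᵥ (A *ᵥ y) := by
        rw [Matrix.dotProduct_mulVec, ← Matrix.mulVec_transpose, ← hw]
      exact e2
    rw [e1]
    refine Finset.sum_le_sum fun t _ => ?_
    calc w t * (A *ᵥ y) t ≤ |w t * (A *ᵥ y) t| := le_abs_self _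
      _ = |w t| * |(A *ᵥ y) t| := abs_mul _ _
      _ ≤ |w t| * v t := mul_le_mul_of_nonneg_left (hv t) (abs_nonneg _)
  have hyi : ∀ i, |y i| ≤ D / |x0 i| := by
    intro i
    by_cases hxi : x0 i = 0
    · rw [h4 i hxi, hxi]; simp
    · rw [le_div_iff₀ (abs_pos.2 hxi), mul_comm, ← abs_mul, abs_of_nonneg (h3 i)]
      exact (Finset.single_le_sum (f := fun i => x0 i * y i) (fun i _ => h3 i)
        (Finset.mem_univ i)).trans hsum2
  constructor
  · intro i
    exact neg_le_of_abs_le (hyi i)
  · intro i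
    exact le_of_abs_le (hyi i)

end

/-- Extreme points of the polytope are rigid. -/
lemma rigid_of_extreme {m n : ℕ} (S : Fin m → Eqn n) (r : Fin m → ℝ) (x0 y : Fin n → ℝ)
    (hy : y ∈ (Poly (sysMatrix S) (sysRhs S) r x0).extremePoints ℝ) (d : Fin n → ℝ)
    (hd : Hom y d) : d = 0 := by
  obtain ⟨⟨h1, h2, h3, h4⟩, hext⟩ := hy
  have hcont : ∀ (p q : ℝ), 0 < p → ∀ᶠ ε in nhds (0 : ℝ), 0 < p + ε * q := by
    intro p q hp
    have : Continuous fun ε : ℝ => p + ε * q := by fun_prop
    exact (this.tendsto' 0 p (by simp)).eventually (lt_mem_nhds hp)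
  -- for all small `ε` the point `y + ε d` lies in the polytope
  have hev : ∀ᶠ ε in nhds (0 : ℝ), y + ε • d ∈ Poly (sysMatrix S) (sysRhs S) r x0 := by
    have hres : ∀ (ε : ℝ) t, (sysMatrix S *ᵥ (y + ε • d)) t - sysRhs S t =
        ((sysMatrix S *ᵥ y) t - sysRhs S t) + ε * (sysMatrix S *ᵥ d) t := by
      intro ε t
      rw [Matrix.mulVec_add, Matrix.mulVec_smul, Pi.add_apply, Pi.smul_apply, smul_eq_mul]
      ring
    have hzero : ∀ t, (sysMatrix S *ᵥ y) t - sysRhs S t = 0 → (sysMatrix S *ᵥ d) t = 0 :=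
      fun t ht => hd.row_eq_zero (S t) ht
    have hyzero : ∀ i, y i = 0 → d i = 0 := by
      intro i hi
      have := hd.2 i i i (by rw [hi, add_zero])
      linarith
    have e1 : ∀ᶠ ε in nhds (0 : ℝ), ∀ t, 0 ≤ r t * ((sysMatrix S *ᵥ (y + ε • d)) t - sysRhs S t) := by
      rw [Filter.eventually_all]
      intro t
      by_cases ht : (sysMatrix S *ᵥ y) t - sysRhs S t = 0
      · refine Filter.Eventually.of_forall fun ε => ?_
        rw [hres, ht, hzero t ht]; simp
      · have hrt : r t ≠ 0 := fun h => ht (h2 t h)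
        have hpos : 0 < r t * ((sysMatrix S *ᵥ y) t - sysRhs S t) :=
          lt_of_le_of_ne (h1 t) (Ne.symm (mul_ne_zero hrt ht))
        refine (hcont _ (r t * (sysMatrix S *ᵥ d) t) hpos).mono fun ε hε => ?_
        rw [hres]
        nlinarith
    have e2 : ∀ ε : ℝ, ∀ t, r t = 0 → (sysMatrix S *ᵥ (y + ε • d)) t - sysRhs S t = 0 := by
      intro ε t ht
      rw [hres, h2 t ht, hzero t (h2 t ht)]; simp
    have e3 : ∀ᶠ ε in nhds (0 : ℝ), ∀ i, 0 ≤ x0 i * (y + ε • d) i := by
      rw [Filter.eventually_all]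
      intro i
      by_cases hi : y i = 0
      · refine Filter.Eventually.of_forall fun ε => ?_
        simp [hi, hyzero i hi]
      · have hxi : x0 i ≠ 0 := fun h => hi (h4 i h)
        have hpos : 0 < x0 i * y i := lt_of_le_of_ne (h3 i) (Ne.symm (mul_ne_zero hxi hi))
        refine (hcont _ (x0 i * d i) hpos).mono fun ε hε => ?_
        simp only [Pi.add_apply, Pi.smul_apply, smul_eq_mul]
        nlinarith
    have e4 : ∀ ε : ℝ, ∀ i, x0 i = 0 → (y + ε • d) i = 0 := by
      intro ε i hi
      simp [h4 i hi, hyzero i (h4 i hi)]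
    filter_upwards [e1, e3] with ε a1 a3
    exact ⟨a1, e2 ε, a3, e4 ε⟩
  have hev' : ∀ᶠ ε in nhds (0 : ℝ), y + (-ε) • d ∈ Poly (sysMatrix S) (sysRhs S) r x0 := by
    have : Filter.Tendsto (fun ε : ℝ => -ε) (nhds 0) (nhds 0) := by
      have := (continuous_neg (G := ℝ)).tendsto 0
      rwa [neg_zero] at this
    exact this.eventually hev
  obtain ⟨δ, hδ, hball⟩ := Metric.eventually_nhds_iff.1 (hev.and hev')
  have hmem := hball (y := δ / 2) (by
    rw [Real.dist_eq, sub_zero, abs_of_pos (by linarith)]; linarith)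
  have hseg : y ∈ openSegment ℝ (y + (δ / 2) • d) (y + (-(δ / 2)) • d) := by
    refine ⟨1 / 2, 1 / 2, by norm_num, by norm_num, by norm_num, ?_⟩
    funext i
    simp only [Pi.add_apply, Pi.smul_apply, smul_eq_mul]
    ring
  have h5 := hext hmem.1 hmem.2 hseg
  have h6 : (δ / 2) • d = 0 := by
    have : y + (δ / 2) • d = y := h5
    simpa using this
  rcases smul_eq_zero.1 h6 with h | h
  · linarith
  · exact h

/-- **Main result.** Let `A x = b` be the matrix representation of a finite family of equations of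
the forms `x_i = 1` and `x_i + x_j = x_k` in `n` variables and let `X` be the Moore-Penrose
pseudoinverse of `A`. Then all coordinates of `X b` lie in `[-2^(n-1), 2^(n-1)]`. -/
theorem result (m n : ℕ) (S : Fin m → Eqn n) (X : Matrix (Fin n) (Fin m) ℝ)
    (hX : IsPseudoinverse (sysMatrix S) X) (l : Fin n) :
    |(X *ᵥ sysRhs S) l| ≤ 2 ^ (n - 1) := by
  obtain ⟨hX1, hX2, hX3, hX4⟩ := hX
  set A := sysMatrix S with hA
  set b := sysRhs S with hb
  set x0 : Fin n → ℝ := X *ᵥ b with hx0
  set r : Fin m → ℝ := A *ᵥ x0 - b with hrdef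
  have hr : Aᵀ *ᵥ r = 0 := by
    have e1 : Aᵀ * (A * X) = Aᵀ := by
      rw [← hX3, ← Matrix.transpose_mul, hX1]
    rw [hrdef, Matrix.mulVec_sub, hx0, Matrix.mulVec_mulVec, Matrix.mulVec_mulVec,
      Matrix.mul_assoc, e1, sub_self]
  have hw : x0 = Aᵀ *ᵥ (Xᵀ *ᵥ x0) := by
    have e1 : Aᵀ * (Xᵀ * X) = X := by
      rw [← Matrix.mul_assoc, ← Matrix.transpose_mul, hX4, hX2]
    conv_lhs => rw [hx0, ← e1]
    rw [hx0, Matrix.mulVec_mulVec, Matrix.mulVec_mulVec, Matrix.mul_assoc]
  obtain ⟨u, hu⟩ := poly_bounded (b := b) hr hw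
  have hcomp : IsCompact (Poly A b r x0) :=
    isCompact_Icc.of_isClosed_subset (poly_closed A b r x0) hu
  have hmem : x0 ∈ Poly A b r x0 := by
    refine ⟨fun t => ?_, fun t ht => ?_, fun i => mul_self_nonneg _, fun i h => h⟩
    · exact mul_self_nonneg (r t)
    · exact ht
  -- an extreme point at which a given functional is at least as large as at `x0`
  have key : ∀ f : (Fin n → ℝ) →L[ℝ] ℝ, ∃ y ∈ (Poly A b r x0).extremePoints ℝ, f x0 ≤ f y := by
    intro f
    have hexp : IsExposed ℝ (Poly A b r x0) (f.toExposed (Poly A b r x0)) :=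
      ContinuousLinearMap.toExposed.isExposed
    have hne : (f.toExposed (Poly A b r x0)).Nonempty := by
      obtain ⟨y, hy, hmax⟩ := hcomp.exists_isMaxOn ⟨x0, hmem⟩ f.continuous.continuousOn
      exact ⟨y, hy, fun z hz => hmax hz⟩
    obtain ⟨y, hy⟩ := (hexp.isCompact hcomp).extremePoints_nonempty hne
    refine ⟨y, hexp.isExtreme.extremePoints_subset_extremePoints hy, ?_⟩
    exact hy.1.2 x0 hmem
  rw [abs_le]
  constructor
  · obtain ⟨y, hy, hle⟩ := key (-(ContinuousLinearMap.proj l))
    have h1 : y l ≤ x0 l := by simpa using hle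
    have h2 := bound_of_rigid y (fun d hd => rigid_of_extreme S r x0 y hy d hd) l
    linarith [neg_le_of_abs_le h2]
  · obtain ⟨y, hy, hle⟩ := key (ContinuousLinearMap.proj l)
    have h1 : x0 l ≤ y l := by simpa using hle
    have h2 := bound_of_rigid y (fun d hd => rigid_of_extreme S r x0 y hy d hd) l
    linarith [le_of_abs_le h2]

end Pool.Agent.Results.MP_b60f31_al.PseudoinverseBound
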